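import Pool.Agent.Work.MP_db9399_da.Frame

/-!
# MP_db9399, DENSE-ALL, phase 2: PRE with protected edges (owner helper82)

`E0` is a graph with boundedly many edges (the precoloured matching inside the regular graph). Its
thin edges get colours which are not own colours of vertices of `V0`.
-/

set_option autoImplicit false

namespace Pool.Agent.Work.MP_db9399_dp

open Finset Classical
open Pool.Agent.Work.MP_db9399_all (nb)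
open Pool.Agent.Work.MP_db9399_da

universe u

/-- PRE with protected edges -/
def Stmt_PREE : Prop :=
  ∀ (C g ρ ρ' K π κ ε : ℝ) (M k : ℕ), 1 ≤ C → 0 < g → g ≤ 1 / 10 → 0 < ρ' → ρ' ≤ ρ → ρ ≤ 1 →
    0 < K → 0 < π → π ≤ 1 / 100 → 0 < κ → κ ≤ 1 / 100 → 0 < ε →
    ∃ ε1 : ℝ, 0 < ε1 ∧ ε1 ≤ 1 ∧ ∀ ε2 : ℝ, 0 < ε2 → ε2 ≤ ε1 → ∃ ζ0 : ℝ, 0 < ζ0 ∧
    ∀ ζ : ℝ, 0 < ζ → ζ ≤ ζ0 → ∃ θ0 : ℝ, 0 < θ0 ∧ ∀ θ : ℝ, 0 < θ → θ ≤ θ0 → ∃ d0 : ℕ,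
    ∀ {V : Type u} [Fintype V] (G E0 : SimpleGraph V) (d : ℕ) (P : Pcs V M) (A : Pal), d0 ≤ d →
      DecP C g ρ ζ θ G d P → PartL ρ' ε2 G d P → PartD K ζ ε2 G d P → PalP A d π κ →
      ∑ v, (nb E0 v).card ≤ k →
      ∃ (t : V → V → ℕ) (c : V → ℕ) (Sp : Finset ℕ), PreP ε ζ G d P A t c Sp ∧
        ∀ v w, (thin G P).Adj v w → E0.Adj v w → t v w ∉ Sp

end Pool.Agent.Work.MP_db9399_dp
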