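import Pool.Agent.Work.MP_db9399_dp.Interface

/-! # Block RSUM (helper39) -/

set_option autoImplicit false

namespace Pool.Agent.Work.MP_db9399_dp

open Finset Classical
open Pool.Agent.Work.MP_db9399_all (nb)
open Pool.Agent.Work.MP_db9399_bp_helper22 (Recol)

universe u

namespace RSUMAux

/-- the colours of a group which cover `v` are counted by the partners of `v` -/
theorem card_cov {W : Type u} {B γ : Type} [Fintype W] [Fintype B] (gp : B → γ)
    (F : B → W → W) (hdis : ∀ b b' v, b ≠ b' → F b v = F b' v → F b v = v) (a : γ) (v : W) :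
    (univ.filter (fun b => gp b = a ∧ F b v ≠ v)).card =
      (univ.filter (fun w => v ≠ w ∧ ∃ b, gp b = a ∧ F b v = w)).card := by
  have himg : (univ.filter (fun w => v ≠ w ∧ ∃ b, gp b = a ∧ F b v = w)) =
      (univ.filter (fun b => gp b = a ∧ F b v ≠ v)).image (fun b => F b v) := by
    ext w
    simp only [mem_filter, mem_univ, true_and, mem_image]
    constructor
    · rintro ⟨hvw, b, hb, rfl⟩
      exact ⟨b, ⟨hb, fun h => hvw h.symm⟩, rfl⟩
    · rintro ⟨b, ⟨hb, hne⟩, rfl⟩
      exact ⟨fun h => hne h.symm, b, hb, rfl⟩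
  rw [himg, card_image_of_injOn]
  intro b hb b' hb' h
  simp only [coe_filter, mem_univ, true_and, Set.mem_ofPred_eq] at hb hb'
  by_contra hne
  exact hb.2 (hdis b b' v hne h)

/-- exchange of the sums -/
theorem sum_cnt {W : Type u} {J B γ : Type} [Fintype W] [Fintype J] [Fintype B] (gp : B → γ)
    (F : B → W → W) (fc : W → Option J) (a : γ) (j : J) :
    ∑ b ∈ univ.filter (fun b => gp b = a), cnt fc (F b) j =
      ∑ v ∈ univ.filter (fun v => fc v = some j),
        (univ.filter (fun b => gp b = a ∧ F b v ≠ v)).card := by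
  have h1 : ∀ b, cnt fc (F b) j =
      ∑ v ∈ univ.filter (fun v => fc v = some j), if F b v ≠ v then 1 else 0 := by
    intro b
    unfold cnt
    rw [card_eq_sum_ones, ← sum_filter, filter_filter]
  have h2 : ∀ v, (univ.filter (fun b => gp b = a ∧ F b v ≠ v)).card =
      ∑ b ∈ univ.filter (fun b => gp b = a), if F b v ≠ v then 1 else 0 := by
    intro v
    rw [card_eq_sum_ones, ← sum_filter, filter_filter]
  rw [sum_congr rfl (fun b _ => h1 b), sum_congr rfl (fun v _ => h2 v), sum_comm]

end RSUMAux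

/-- Block RSUM. -/
theorem stmt_RSUM : Stmt_RSUM.{u} := by
  intro W J B γ _ _ _ gp P P' fc _ hdis hrec a j
  rw [RSUMAux.sum_cnt, RSUMAux.sum_cnt]
  refine sum_congr rfl (fun v _ => ?_)
  rw [RSUMAux.card_cov gp P' hrec.2.1, RSUMAux.card_cov gp P hdis]
  congr 1
  ext w
  simp only [mem_filter, mem_univ, true_and]
  constructor
  · rintro ⟨h, h'⟩
    exact ⟨h, (hrec.2.2 a v w h).mp h'⟩
  · rintro ⟨h, h'⟩
    exact ⟨h, (hrec.2.2 a v w h).mpr h'⟩

end Pool.Agent.Work.MP_db9399_dp
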