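import Pool.Agent.Work.MP_db9399_dp.Interface
import Pool.Agent.Work.MP_db9399_dp.RSUM

/-! # Block CSUM (helper39) -/

set_option autoImplicit false

namespace Pool.Agent.Work.MP_db9399_dp

open Finset Classical
open Pool.Agent.Work.MP_db9399_all (nb)

universe u

namespace CSUMAux

/-- the sum over the cell of `Option V` is a sum over the cell of `V` -/
theorem sum_cell {V : Type u} {J : Type} [Fintype V] [Fintype J] (fc : V → Option J) (j : J)
    (f : Option V → ℕ) :
    ∑ w ∈ univ.filter (fun w : Option V => w.bind fc = some j), f w =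
      ∑ v ∈ univ.filter (fun v : V => fc v = some j), f (some v) := by
  have himg : (univ.filter (fun w : Option V => w.bind fc = some j)) =
      (univ.filter (fun v : V => fc v = some j)).image some := by
    ext w
    simp only [mem_filter, mem_univ, true_and, mem_image]
    cases w with
    | none => simp
    | some v => simp
  rw [himg, sum_image]
  intro v _ v' _ h
  exact Option.some_injective _ h

end CSUMAux

/-- Block CSUM. -/
theorem stmt_CSUM : Stmt_CSUM.{u} := by
  intro V J β γ _ _ _ gp F V0 τ fc P hP hτ hV0 g j
  rw [RSUMAux.sum_cnt, CSUMAux.sum_cell]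
  refine sum_congr rfl (fun v hv => ?_)
  simp only [mem_filter, mem_univ, true_and] at hv
  have hv0 : v ∉ V0 := by
    intro h
    rw [hV0 v h] at hv
    exact absurd hv (by simp)
  have himg : (univ.filter (fun b => gp b = g ∧ P b (some v) ≠ some v)).image
      (fun b => P b (some v)) = (((nb F v).filter (fun w => τ v w = g)).image some) := by
    ext x
    simp only [mem_filter, mem_univ, true_and, mem_image, nb]
    constructor
    · rintro ⟨b, ⟨hb, hne⟩, rfl⟩
      have hadj := hP.adj b (some v) hne
      have h2 := hadj
      unfold star at h2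
      rw [SimpleGraph.fromRel_adj] at h2
      obtain ⟨hne', h2⟩ := h2
      have hex : ∃ w, P b (some v) = some w ∧ F.Adj v w := by
        rcases h2 with (⟨a, w, ha, hw, haw⟩ | ⟨z, hz, h1, h3⟩) | (⟨a, w, ha, hw, haw⟩ | ⟨z, hz, h1, h3⟩)
        · have : v = a := Option.some_injective _ ha
          exact ⟨w, hw, this ▸ haw⟩
        · exact absurd h1 (by simp)
        · have : v = w := Option.some_injective _ hw
          exact ⟨a, ha, this ▸ haw.symm⟩
        · have : v = z := Option.some_injective _ h3
          exact absurd (this ▸ hz) hv0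
      obtain ⟨w, hw, hvw⟩ := hex
      refine ⟨w, ⟨hvw, ?_⟩, hw.symm⟩
      rw [← hτ b v w hvw.ne hw, hb]
    · rintro ⟨w, ⟨hvw, hg⟩, rfl⟩
      have hadj : (star F V0).Adj (some v) (some w) := by
        unfold star
        rw [SimpleGraph.fromRel_adj]
        refine ⟨fun h => hvw.ne (Option.some_injective _ h), Or.inl (Or.inl ⟨v, w, rfl, rfl, hvw⟩)⟩
      obtain ⟨b, hb⟩ := hP.cov _ _ hadj
      refine ⟨b, ⟨?_, ?_⟩, hb⟩
      · rw [hτ b v w hvw.ne hb, hg]
      · rw [hb]
        exact fun h => hvw.ne (Option.some_injective _ h).symm
  have hinj : Set.InjOn (fun b => P b (some v))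
      (univ.filter (fun b => gp b = g ∧ P b (some v) ≠ some v) : Finset β) := by
    intro b hb b' _ h
    simp only [coe_filter, mem_univ, true_and, Set.mem_ofPred_eq] at hb
    by_contra hne
    exact hb.2 (hP.dis b b' (some v) hne h)
  have key := card_image_of_injOn hinj
  rw [himg, card_image_of_injective _ (Option.some_injective _)] at key
  refine Eq.trans (congrArg card ?_) key.symm
  ext b
  simp only [mem_filter, mem_univ, true_and]

end Pool.Agent.Work.MP_db9399_dp
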