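import Pool.Agent.Work.MP_db9399_all.Interface
import Pool.Agent.Work.MP_db9399_bp_helper22.Equitable
import Pool.Agent.Work.MP_db9399_bp_helper22.Round

/-!
# MP_db9399, DENSE-ALL, part PRE: the prescribed edges (owner helper82)

`F` is the graph of the prescribed edges, `Z` the set of exceptional vertices (all their edges are in
`F`). TYPE: every edge of `F` gets a type (set of colours) which is allowed at its ends outside `Z`,
exact numbers at the vertices of `Z`, proportional numbers between any two cells.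
EQC: the edges of every group of types are coloured properly, equitably with respect to signed nodes.
ADJ: sign corrections at the own colours of some vertices of `Z`. See `BLUEPRINT.md`.
-/

set_option autoImplicit false

namespace Pool.Agent.Work.MP_db9399_dp

open Finset Classical
open Pool.Agent.Work.MP_db9399_all (nb)
open Pool.Agent.Work.MP_db9399_bp_helper22 (Recol)

universe u

/-! ## TYPE -/

/-- Every nonempty set `U` of types is well represented in the set `S` of items: all items allow a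
type of `U`, or many of them do. -/
def Rep {ι 𝒯 : Type*} (al : ι → 𝒯 → Prop) (ρ : 𝒯 → ℝ) (e : ℝ) (S : Finset ι) : Prop :=
  ∀ U : Finset 𝒯, U.Nonempty → (∀ i ∈ S, ∃ T ∈ U, al i T) ∨
    (∑ T ∈ U, ρ T + e) * S.card ≤ ((S.filter (fun i => ∃ T ∈ U, al i T)).card : ℝ)

/-- HALLT (Hall's theorem, slots `Σ T, Fin (n T)` against items): types with prescribed numbers. -/
def Stmt_HALLT : Prop :=
  ∀ {ι : Type u} {𝒯 : Type} [Fintype 𝒯] [Nonempty 𝒯] (al : ι → 𝒯 → Prop) (ρ : 𝒯 → ℝ) (e : ℝ)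
    (S : Finset ι) (n : 𝒯 → ℕ), Rep al ρ e S → ∑ T, n T = S.card →
    (∀ U : Finset 𝒯, (∑ T ∈ U, (n T : ℝ)) ≤ (∑ T ∈ U, ρ T + e) * S.card) →
    ∃ τ : ι → 𝒯, (∀ i ∈ S, al i (τ i)) ∧ ∀ T, (S.filter (fun i => τ i = T)).card = n T

/-- RK1: integral rounding of the rank one matrix `r A * s T / N`, with exact row and column
sums. -/
def Stmt_RK1 : Prop :=
  ∀ {I 𝒯 : Type} [Fintype I] [Fintype 𝒯] (r : I → ℕ) (s : 𝒯 → ℕ), ∑ A, r A = ∑ T, s T →
    ∃ n : I → 𝒯 → ℕ, (∀ A, ∑ T, n A T = r A) ∧ (∀ T, ∑ A, n A T = s T) ∧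
      ∀ A T, |(n A T : ℝ) * (∑ A, r A : ℕ) - (r A : ℝ) * s T| ≤
        (Fintype.card 𝒯 : ℝ) * (∑ A, r A : ℕ)

/-- TYPZ (from HALLT, RK1): the types of the edges from one exceptional vertex. -/
def Stmt_TYPZ : Prop :=
  ∀ {ι : Type u} {I 𝒯 : Type} [Fintype I] [Fintype 𝒯] [Nonempty 𝒯] (al : ι → 𝒯 → Prop)
    (ρ : 𝒯 → ℝ) (e R c0 : ℝ) (S : Finset ι) (cl : ι → I) (Bd : Finset I) (st : I) (s : 𝒯 → ℕ),
    0 < e → e ≤ 1 → 0 ≤ c0 → (∀ T, e ≤ ρ T) → ∑ T, ρ T = 1 → ∑ T, s T = S.card →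
    (∀ T, |(s T : ℝ) - ρ T * S.card| ≤ c0) → (∀ i ∈ S, ∃ T, al i T) →
    (∀ A, A ∉ Bd → S.filter (fun i => cl i = A) = ∅ ∨
      (Rep al ρ e (S.filter (fun i => cl i = A)) ∧
        R ≤ ((S.filter (fun i => cl i = A)).card : ℝ))) →
    st ∉ Bd → Rep al ρ e (S.filter (fun i => cl i = st)) →
    R ≤ ((S.filter (fun i => cl i = st)).card : ℝ) →
    4 * ((S.filter (fun i => cl i ∈ Bd)).card : ℝ) ≤ e * (S.filter (fun i => cl i = st)).card →
    2 * (Fintype.card 𝒯 : ℝ) * (Fintype.card 𝒯 + c0) ≤ e * R →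
    ∃ τ : ι → 𝒯, (∀ i ∈ S, al i (τ i)) ∧ (∀ T, (S.filter (fun i => τ i = T)).card = s T) ∧
      ∀ A T, |((S.filter (fun i => cl i = A ∧ τ i = T)).card : ℝ) -
        ρ T * (S.filter (fun i => cl i = A)).card| ≤
          c0 + Fintype.card 𝒯 + (S.filter (fun i => cl i ∈ Bd)).card

section defs
variable {V : Type u} [Fintype V] {I 𝒯 : Type}

/-- the neighbours of `z` outside `Z` in the cell `A` -/
noncomputable def zb (F : SimpleGraph V) (Z : Finset V) (cl : V → I) (z : V) (A : I) : Finset V :=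
  (nb F z).filter (fun v => v ∉ Z ∧ cl v = A)

/-- the edges (as ordered pairs) between the cells `A` and `B`, outside `Z` -/
noncomputable def pb (F : SimpleGraph V) (Z : Finset V) (cl : V → I) (A B : I) :
    Finset (V × V) :=
  univ.filter (fun p => F.Adj p.1 p.2 ∧ p.1 ∉ Z ∧ p.2 ∉ Z ∧ cl p.1 = A ∧ cl p.2 = B)

/-- the number of neighbours of `z` outside `Z` in its bad cells -/
noncomputable def bd (F : SimpleGraph V) (Z : Finset V) (cl : V → I) (Bd : V → Finset I)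
    (z : V) : ℕ := ((nb F z).filter (fun v => v ∉ Z ∧ cl v ∈ Bd z)).card

/-- Input of TYPE. `m z T` = number of edges of type `T` wanted at `z ∈ Z`. -/
structure TyIn [Fintype I] [Fintype 𝒯] (F : SimpleGraph V) (Z : Finset V) (cl : V → I)
    (al : V → 𝒯 → Prop) (ρ : 𝒯 → ℝ) (m : V → 𝒯 → ℕ) (Bd : V → Finset I) (st : V → I)
    (e R L : ℝ) : Prop where
  e0 : 0 < e
  e1 : e ≤ 1
  ρe : ∀ T, e ≤ ρ T
  ρ1 : ∑ T, ρ T = 1
  msum : ∀ z ∈ Z, ∑ T, m z T = (nb F z).card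
  map : ∀ z ∈ Z, ∀ T, |(m z T : ℝ) - ρ T * (nb F z).card| ≤ 2
  al1 : ∀ v w, F.Adj v w → v ∉ Z → w ∉ Z → ∃ T, al v T ∧ al w T
  al2 : ∀ v, v ∉ Z → ∃ T, al v T
  rep : ∀ A B, L ≤ ((pb F Z cl A B).card : ℝ) →
    Rep (fun p : V × V => fun T => al p.1 T ∧ al p.2 T) ρ e (pb F Z cl A B)
  good : ∀ z ∈ Z, ∀ A, A ∉ Bd z → zb F Z cl z A = ∅ ∨
    (Rep al ρ e (zb F Z cl z A) ∧ R ≤ ((zb F Z cl z A).card : ℝ))
  st1 : ∀ z ∈ Z, st z ∉ Bd z
  st2 : ∀ z ∈ Z, Rep al ρ e (zb F Z cl z (st z))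
  st3 : ∀ z ∈ Z, R ≤ ((zb F Z cl z (st z)).card : ℝ)
  st4 : ∀ z ∈ Z, 4 * (bd F Z cl Bd z : ℝ) ≤ e * (zb F Z cl z (st z)).card
  RR : 20 * (Fintype.card 𝒯 : ℝ) ^ 2 ≤ e * R
  LL : 2 * (Fintype.card 𝒯 : ℝ) ≤ e * L

/-- Output of TYPE. -/
structure TyOut [Fintype I] [Fintype 𝒯] (F : SimpleGraph V) (Z : Finset V) (cl : V → I)
    (al : V → 𝒯 → Prop) (ρ : 𝒯 → ℝ) (m : V → 𝒯 → ℕ) (Bd : V → Finset I) (L : ℝ)
    (τ : V → V → 𝒯) : Prop where
  sym : ∀ v w, τ v w = τ w v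
  alw : ∀ v w, F.Adj v w → v ∉ Z → al v (τ v w)
  ext : ∀ z ∈ Z, ∀ T, ((nb F z).filter (fun w => τ z w = T)).card = m z T
  blk : ∀ A B T, |(((pb F Z cl A B).filter (fun p => τ p.1 p.2 = T)).card : ℝ) -
    ρ T * (pb F Z cl A B).card| ≤ L + 2
  zbl : ∀ z ∈ Z, ∀ A T, |(((zb F Z cl z A).filter (fun w => τ z w = T)).card : ℝ) -
    ρ T * (zb F Z cl z A).card| ≤ 5 * Fintype.card 𝒯 + 2 + bd F Z cl Bd z
  zz : ∀ z ∈ Z, ∀ T, |((((nb F z).filter (fun w => w ∈ Z)).filter (fun w => τ z w = T)).card : ℝ) -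
    ρ T * ((nb F z).filter (fun w => w ∈ Z)).card| ≤ 4 * Fintype.card 𝒯

end defs

/-- TYZZ (from `round`): types of the edges inside `Z`, proportional at every vertex of `Z`. -/
def Stmt_TYZZ : Prop :=
  ∀ {V : Type u} [Fintype V] {𝒯 : Type} [Fintype 𝒯] [Nonempty 𝒯] (F : SimpleGraph V)
    (Z : Finset V) (ρ : 𝒯 → ℝ), (∀ T, 0 < ρ T) → ∑ T, ρ T = 1 →
    ∃ τ : V → V → 𝒯, (∀ v w, τ v w = τ w v) ∧
      ∀ z ∈ Z, ∀ T, |((((nb F z).filter (fun w => w ∈ Z)).filter (fun w => τ z w = T)).card : ℝ) -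
        ρ T * ((nb F z).filter (fun w => w ∈ Z)).card| ≤ 4 * Fintype.card 𝒯

/-- TYAB (from HALLT): types of the edges outside `Z`. -/
def Stmt_TYAB : Prop :=
  ∀ {V : Type u} [Fintype V] {I 𝒯 : Type} [Fintype I] [Fintype 𝒯] [Nonempty 𝒯]
    (F : SimpleGraph V) (Z : Finset V) (cl : V → I) (al : V → 𝒯 → Prop) (ρ : 𝒯 → ℝ) (e L : ℝ),
    0 < e → (∀ T, 0 ≤ ρ T) → ∑ T, ρ T = 1 → 2 * (Fintype.card 𝒯 : ℝ) ≤ e * L →
    (∀ v w, F.Adj v w → v ∉ Z → w ∉ Z → ∃ T, al v T ∧ al w T) →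
    (∀ A B, L ≤ ((pb F Z cl A B).card : ℝ) →
      Rep (fun p : V × V => fun T => al p.1 T ∧ al p.2 T) ρ e (pb F Z cl A B)) →
    ∃ τ : V → V → 𝒯, (∀ v w, τ v w = τ w v) ∧
      (∀ v w, F.Adj v w → v ∉ Z → w ∉ Z → al v (τ v w)) ∧
      ∀ A B T, |(((pb F Z cl A B).filter (fun p => τ p.1 p.2 = T)).card : ℝ) -
        ρ T * (pb F Z cl A B).card| ≤ L + 2

/-- TYPE (from TYPZ, TYZZ, TYAB). -/
def Stmt_TYPE : Prop :=
  ∀ {V : Type u} [Fintype V] {I 𝒯 : Type} [Fintype I] [Fintype 𝒯] [Nonempty 𝒯]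
    (F : SimpleGraph V) (Z : Finset V) (cl : V → I) (al : V → 𝒯 → Prop) (ρ : 𝒯 → ℝ)
    (m : V → 𝒯 → ℕ) (Bd : V → Finset I) (st : V → I) (e R L : ℝ),
    TyIn F Z cl al ρ m Bd st e R L → ∃ τ : V → V → 𝒯, TyOut F Z cl al ρ m Bd L τ

/-- TSUM: signed sums over the cells are proportional. -/
def Stmt_TSUM : Prop :=
  ∀ {V : Type u} [Fintype V] {I 𝒯 : Type} [Fintype I] [Fintype 𝒯]
    (F : SimpleGraph V) (Z : Finset V) (cl : V → I) (al : V → 𝒯 → Prop) (ρ : 𝒯 → ℝ)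
    (m : V → 𝒯 → ℕ) (Bd : V → Finset I) (L : ℝ) (τ : V → V → 𝒯),
    TyOut F Z cl al ρ m Bd L τ → ∀ s : I → ℝ, (∀ A, |s A| ≤ 1) → ∀ T,
      |∑ v ∈ univ.filter (fun v => v ∉ Z), s (cl v) * ((nb F v).filter (fun w => τ v w = T)).card -
        ρ T * ∑ v ∈ univ.filter (fun v => v ∉ Z), s (cl v) * (nb F v).card| ≤
      (Fintype.card I : ℝ) ^ 2 * (L + 2) + Fintype.card I *
        ((5 * Fintype.card 𝒯 + 2) * Z.card + ∑ z ∈ Z, (bd F Z cl Bd z : ℝ))

/-! ## Colours -/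

/-- an edge colouring, given by disjoint matchings (involutions) -/
structure ICol {W β : Type*} (E : SimpleGraph W) (P : β → W → W) : Prop where
  inv : ∀ b v, P b (P b v) = v
  dis : ∀ b b' v, b ≠ b' → P b v = P b' v → P b v = v
  adj : ∀ b v, P b v ≠ v → E.Adj v (P b v)
  cov : ∀ v w, E.Adj v w → ∃ b, P b v = w

/-- the graph `F` with a new vertex `none` joined to `V0`; the edges at `none` are the own colours
of the vertices of `V0` -/
def star {V : Type u} (F : SimpleGraph V) (V0 : Finset V) : SimpleGraph (Option V) :=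
  SimpleGraph.fromRel (fun a b => (∃ v w, a = some v ∧ b = some w ∧ F.Adj v w) ∨
    ∃ z ∈ V0, a = none ∧ b = some z)

/-- GCOL (greedy, `bkw`, greedy): proper colouring with full degrees at `Z`. -/
def Stmt_GCOL : Prop :=
  ∀ {W : Type u} [Fintype W] (E : SimpleGraph W) (Z : Finset W) (B : Type) [Fintype B]
    [Nonempty B] (s : ℕ), 2 * s ≤ Fintype.card B →
    (∀ z ∈ Z, (nb E z).card ≤ Fintype.card B) →
    (∀ z ∈ Z, ((nb E z).filter (fun w => w ∈ Z)).card ≤ s) →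
    (∀ v, v ∉ Z → (nb E v).card ≤ s) →
    ∃ t : W → W → B, (∀ v w, t v w = t w v) ∧ ∀ v, Set.InjOn (t v) (nb E v : Set W)

/-- ICOL (from GCOL): all groups together. -/
def Stmt_ICOL : Prop :=
  ∀ {V : Type u} [Fintype V] {β γ : Type} [Fintype β] (gp : β → γ) (F : SimpleGraph V)
    (Z V0 : Finset V) (τ : V → V → γ) (g0 : γ) (s : ℕ), V0 ⊆ Z → V0.card ≤ s → 1 ≤ s →
    (∀ v w, τ v w = τ w v) → (∀ g, 2 * s ≤ (univ.filter (fun b => gp b = g)).card) →
    (∀ z ∈ Z, ∀ g, ((nb F z).filter (fun w => τ z w = g)).card +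
      (if z ∈ V0 ∧ g = g0 then 1 else 0) ≤ (univ.filter (fun b => gp b = g)).card) →
    (∀ z ∈ Z, ((nb F z).filter (fun w => w ∈ Z)).card ≤ s) →
    (∀ v, v ∉ Z → (nb F v).card ≤ s) →
    ∃ P : β → Option V → Option V, ICol (star F V0) P ∧
      (∀ b v w, v ≠ w → P b (some v) = some w → gp b = τ v w) ∧
      ∀ b v, P b none = some v → gp b = g0

/-! ## Equitable -/

/-- number of covered vertices in the fine cell `j` (`fc w = none` : `w` is not counted) -/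
noncomputable def cnt {W J : Type*} [Fintype W] (fc : W → Option J) (f : W → W) (j : J) : ℕ :=
  (univ.filter (fun w => fc w = some j ∧ f w ≠ w)).card

/-- signed number of covered vertices at the node `x` -/
noncomputable def sq {W J N : Type*} [Fintype W] [Fintype J] (fc : W → Option J) (nd : J → N)
    (sg : J → ℤ) (f : W → W) (x : N) : ℤ :=
  ∑ j ∈ univ.filter (fun j => nd j = x), sg j * cnt fc f j

/-- DEAL: dealing the elements of a finite set (sorted by their values) to `g` players. -/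
def Stmt_DEAL : Prop :=
  ∀ {B Q : Type} [Fintype B] [Fintype Q] (vec : B → Q) (s0 : ℕ), 0 < s0 → s0 ≤ Fintype.card B →
    ∃ (g : ℕ) (sub : B → Fin g), 0 < g ∧
      (∀ a, s0 ≤ (univ.filter (fun b => sub b = a)).card ∧
        (univ.filter (fun b => sub b = a)).card ≤ 2 * s0) ∧
      ∀ a c, |((univ.filter (fun b => sub b = a ∧ vec b = c)).card : ℝ) * g -
        (univ.filter (fun b => vec b = c)).card| ≤ g

/-- EQU (from `equitable`, all signs 1): the numbers of covered vertices of every fine cell differ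
by at most 2. -/
def Stmt_EQU : Prop :=
  ∀ {W : Type u} {J B : Type} [Fintype W] [Fintype J] [Fintype B] (P : B → W → W)
    (fc : W → Option J), (∀ b v, P b (P b v) = v) →
    (∀ b b' v, b ≠ b' → P b v = P b' v → P b v = v) →
    ∃ P' : B → W → W, Recol (fun _ : B => ()) P P' ∧
      ∀ b b' j, cnt fc (P' b) j ≤ cnt fc (P' b') j + 2

/-- EQS (from `equitable`): signed sums differ by at most 2 inside the subgroups. -/
def Stmt_EQS : Prop :=
  ∀ {W : Type u} {J B N : Type} [Fintype W] [Fintype J] [Fintype B] [Fintype N] (g : ℕ)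
    (sub : B → Fin g) (P : B → W → W) (fc : W → Option J) (nd : J → N) (sg : J → ℤ),
    (∀ b v, P b (P b v) = v) → (∀ b b' v, b ≠ b' → P b v = P b' v → P b v = v) →
    (∀ j, sg j = 0 ∨ sg j = 1 ∨ sg j = -1) →
    ∃ P' : B → W → W, Recol sub P P' ∧
      ∀ b b', sub b = sub b' → ∀ x, |sq fc nd sg (P' b) x - sq fc nd sg (P' b') x| ≤ 2

/-- RSUM: a recolouring inside the subgroups does not change the sums over the subgroups. -/
def Stmt_RSUM : Prop :=
  ∀ {W : Type u} {J B γ : Type} [Fintype W] [Fintype J] [Fintype B] (gp : B → γ)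
    (P P' : B → W → W) (fc : W → Option J), (∀ b v, P b (P b v) = v) →
    (∀ b b' v, b ≠ b' → P b v = P b' v → P b v = v) → Recol gp P P' → ∀ a j,
      ∑ b ∈ univ.filter (fun b => gp b = a), cnt fc (P' b) j =
        ∑ b ∈ univ.filter (fun b => gp b = a), cnt fc (P b) j

/-- result for one group of colours (`E` = number of ends of edges in the group) -/
structure EqRes {W J B N : Type*} [Fintype W] [Fintype J] [Fintype B] (s0 : ℕ)
    (P : B → W → W) (fc : W → Option J) (nd : J → N) (sg : J → ℤ) (E : ℕ) : Prop where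
  load : ∀ b, (∑ j, cnt fc (P b) j) * Fintype.card B ≤ s0 * (E + Fintype.card B)
  two : ∀ b x, |sq fc nd sg (P b) x| ≤ 2
  pos : ∀ x, ((∑ b, max (sq fc nd sg (P b) x) 0 : ℤ) : ℝ) ≤ 6 / 10 * Fintype.card B
  neg : ∀ x, ((∑ b, max (-sq fc nd sg (P b) x) 0 : ℤ) : ℝ) ≤ 6 / 10 * Fintype.card B
  nn : ∀ x, 4 / 10 * (Fintype.card B : ℝ) ≤
    (univ.filter (fun b => 0 ≤ sq fc nd sg (P b) x)).card
  np : ∀ x, 4 / 10 * (Fintype.card B : ℝ) ≤
    (univ.filter (fun b => sq fc nd sg (P b) x ≤ 0)).card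

/-- EQG (from EQU, DEAL, EQS, RSUM): one group of colours. -/
def Stmt_EQG : Prop :=
  ∀ (J : Type) [Fintype J], ∃ s0 : ℕ, 0 < s0 ∧
    ∀ {W : Type u} {B N : Type} [Fintype W] [Fintype B] [Fintype N] (P : B → W → W)
      (fc : W → Option J) (nd : J → N) (sg : J → ℤ), s0 ≤ Fintype.card B →
      (∀ b v, P b (P b v) = v) → (∀ b b' v, b ≠ b' → P b v = P b' v → P b v = v) →
      (∀ j, sg j = 0 ∨ sg j = 1 ∨ sg j = -1) →
      (∀ x, |((∑ b, sq fc nd sg (P b) x : ℤ) : ℝ)| ≤ (Fintype.card B : ℝ) / 10) →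
      ∃ P' : B → W → W, Recol (fun _ : B => ()) P P' ∧
        EqRes s0 P' fc nd sg (∑ b, ∑ j, cnt fc (P b) j)

/-- GLUE: recolourings of the groups are put together. -/
def Stmt_GLUE : Prop :=
  ∀ {W : Type u} {β γ : Type} (gp : β → γ) (E : SimpleGraph W) (P : β → W → W)
    (P' : ∀ g, {b // gp b = g} → W → W), ICol E P →
    (∀ g, Recol (fun _ : {b // gp b = g} => ()) (fun b => P b.1) (P' g)) →
    ICol E (fun b => P' (gp b) ⟨b, rfl⟩) ∧ Recol gp P (fun b => P' (gp b) ⟨b, rfl⟩)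

/-- palette of a group -/
abbrev Pl {β γ : Type} (gp : β → γ) (g : γ) : Type := {b : β // gp b = g}

/-- CSUM: the number of ends in a fine cell of the edges of a group, counted by colours. -/
def Stmt_CSUM : Prop :=
  ∀ {V : Type u} {J β γ : Type} [Fintype V] [Fintype J] [Fintype β] (gp : β → γ)
    (F : SimpleGraph V) (V0 : Finset V) (τ : V → V → γ) (fc : V → Option J)
    (P : β → Option V → Option V), ICol (star F V0) P →
    (∀ b v w, v ≠ w → P b (some v) = some w → gp b = τ v w) → (∀ z ∈ V0, fc z = none) →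
    ∀ g j, ∑ b ∈ univ.filter (fun b => gp b = g), cnt (fun w : Option V => w.bind fc) (P b) j =
      ∑ v ∈ univ.filter (fun v => fc v = some j), ((nb F v).filter (fun w => τ v w = g)).card

/-- EQC (from ICOL, EQG, GLUE, CSUM): colours for all groups; nodes and signs depend on the
group. -/
def Stmt_EQC : Prop :=
  ∀ (J γ : Type) [Fintype J] [Fintype γ], ∃ s0 : ℕ, 0 < s0 ∧
    ∀ {V : Type u} {β N : Type} [Fintype V] [Fintype β] [Fintype N] (gp : β → γ)
      (F : SimpleGraph V) (Z V0 : Finset V) (τ : V → V → γ) (g0 : γ) (s : ℕ) (fc : V → Option J)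
      (nd : γ → J → N) (sg : γ → J → ℤ), V0 ⊆ Z → V0.card ≤ s → 1 ≤ s →
      (∀ v w, τ v w = τ w v) → (∀ g, 2 * s ≤ (univ.filter (fun b => gp b = g)).card) →
      (∀ z ∈ Z, ∀ g, ((nb F z).filter (fun w => τ z w = g)).card +
        (if z ∈ V0 ∧ g = g0 then 1 else 0) ≤ (univ.filter (fun b => gp b = g)).card) →
      (∀ z ∈ Z, ((nb F z).filter (fun w => w ∈ Z)).card ≤ s) →
      (∀ v, v ∉ Z → (nb F v).card ≤ s) → (∀ z ∈ Z, fc z = none) →
      (∀ g, s0 ≤ (univ.filter (fun b => gp b = g)).card) →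
      (∀ g j, sg g j = 0 ∨ sg g j = 1 ∨ sg g j = -1) →
      (∀ g x, |∑ j ∈ univ.filter (fun j => nd g j = x), (sg g j : ℝ) *
        ∑ v ∈ univ.filter (fun v => fc v = some j), ((nb F v).filter (fun w => τ v w = g)).card| ≤
        ((univ.filter (fun b => gp b = g)).card : ℝ) / 10) →
      ∃ P : β → Option V → Option V, ICol (star F V0) P ∧
        (∀ b v w, v ≠ w → P b (some v) = some w → gp b = τ v w) ∧
        (∀ b v, P b none = some v → gp b = g0) ∧
        ∀ g, EqRes s0 (fun b : Pl gp g => P b.1) (fun w : Option V => w.bind fc) (nd g) (sg g)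
          (∑ v ∈ univ.filter (fun v => (fc v).isSome), ((nb F v).filter (fun w => τ v w = g)).card)

/-! ## Sign corrections -/

/-- the vertices outside `V0` covered by the colour `b` -/
noncomputable def cov {V : Type u} {β : Type} [Fintype V] (V0 : Finset V)
    (P : β → Option V → Option V) (b : β) : Finset V :=
  univ.filter (fun v => v ∉ V0 ∧ P b (some v) ≠ some v)

/-- ADJ: for the own colour `o z` of `z ∈ Zt` the number of covered vertices in `A z` becomes at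
most the number of covered vertices in `A' z`. -/
def Stmt_ADJ : Prop :=
  ∀ {V : Type u} [Fintype V] {β : Type} [Fintype β] (F : SimpleGraph V) (V0 Zt : Finset V)
    (P : β → Option V → Option V) (B : Finset β) (o : V → β) (A A' : V → Finset V) (s l : ℕ),
    ICol (star F V0) P → Zt ⊆ V0 → (∀ z ∈ V0, o z ∈ B ∧ P (o z) none = some z) →
    (∀ z ∈ Zt, Disjoint (A z) V0 ∧ Disjoint (A' z) V0 ∧ Disjoint (A z) (A' z)) →
    (∀ z ∈ Zt, ∀ v ∈ A z, ∀ w ∈ A' z, ¬ F.Adj v w) →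
    (∀ z ∈ Zt, (cov V0 P (o z) ∩ A z).card ≤ (cov V0 P (o z) ∩ A' z).card + 2) →
    (∀ v, v ∉ V0 → (nb F v).card ≤ s) → (∀ z ∈ Zt, (cov V0 P (o z)).card ≤ l) →
    3 * V0.card + 2 * s < B.card →
    (∀ z ∈ Zt, ∀ z' ∈ V0, 3 * V0.card + s + l + 4 < ((nb F z').filter (fun w => w ∉ V0 ∧
      w ∉ A z ∧ ∃ b ∈ B, P b (some z') = some w)).card) →
    ∃ P' : β → Option V → Option V, ICol (star F V0) P' ∧ (∀ b, b ∉ B → P' b = P b) ∧
      (∀ z ∈ V0, P' (o z) none = some z) ∧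
      (∀ z ∈ Zt, (cov V0 P' (o z) ∩ A z).card ≤ (cov V0 P' (o z) ∩ A' z).card) ∧
      (∀ b, (cov V0 P' b \ cov V0 P b).card ≤ 4 ∧ (cov V0 P b \ cov V0 P' b).card ≤ 4) ∧
      (univ.filter (fun b => cov V0 P' b ≠ cov V0 P b)).card ≤ 3 * Zt.card

end Pool.Agent.Work.MP_db9399_dp
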