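import Pool.Agent.Work.MP_db9399_dp.Interface

/-!
# MP_db9399, DENSE-ALL, part PRE: sign corrections, second version (owner helper82)

As `Stmt_ADJ`, but the supply of coloured edges at the vertices of `V0` may be smaller than the
degrees `s` outside `V0`.
-/

set_option autoImplicit false

namespace Pool.Agent.Work.MP_db9399_dp

open Finset Classical
open Pool.Agent.Work.MP_db9399_all (nb)

universe u

/-- ADJ2: for the own colour `o z` of `z ∈ Zt` the number of covered vertices in `A z` becomes at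
most the number of covered vertices in `A' z`. -/
def Stmt_ADJ2 : Prop :=
  ∀ {V : Type u} [Fintype V] {β : Type} [Fintype β] (F : SimpleGraph V) (V0 Zt : Finset V)
    (P : β → Option V → Option V) (B : Finset β) (o : V → β) (A A' : V → Finset V) (s l : ℕ),
    ICol (star F V0) P → Zt ⊆ V0 → (∀ z ∈ V0, o z ∈ B ∧ P (o z) none = some z) →
    (∀ z ∈ Zt, Disjoint (A z) (A' z)) →
    (∀ z ∈ Zt, ∀ v ∈ A z, ∀ w ∈ A' z, ¬ F.Adj v w) →
    (∀ z ∈ Zt, (cov V0 P (o z) ∩ A z).card ≤ (cov V0 P (o z) ∩ A' z).card + 2) →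
    (∀ v, v ∉ V0 → (nb F v).card ≤ s) → (∀ z ∈ Zt, (cov V0 P (o z)).card ≤ l) →
    5 * V0.card + 2 * s + 1 < B.card →
    (∀ z ∈ Zt, ∀ z' ∈ V0, 6 * V0.card + l < ((nb F z').filter (fun w => w ∉ V0 ∧
      w ∉ A z ∧ ∃ b ∈ B, P b (some z') = some w)).card) →
    ∃ P' : β → Option V → Option V, ICol (star F V0) P' ∧ (∀ b, b ∉ B → P' b = P b) ∧
      (∀ z ∈ V0, P' (o z) none = some z) ∧
      (∀ z ∈ Zt, (cov V0 P' (o z) ∩ A z).card ≤ (cov V0 P' (o z) ∩ A' z).card) ∧
      (∀ b, (cov V0 P' b \ cov V0 P b).card + (cov V0 P b \ cov V0 P' b).card ≤ 6) ∧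
      (univ.filter (fun b => P' b ≠ P b)).card ≤ 5 * Zt.card

end Pool.Agent.Work.MP_db9399_dp
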