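import Pool.Agent.Work.MP_db9399_da.Frame

/-!
# MP_db9399, DENSE-ALL, phase 2: additional exports of PRE (owner helper82)
-/

set_option autoImplicit false

namespace Pool.Agent.Work.MP_db9399_dp

open Finset Classical
open Pool.Agent.Work.MP_db9399_all (nb)
open Pool.Agent.Work.MP_db9399_da

universe u

/-- Additional results of PRE. `sup`: every `z ∈ V0` which is not rigid for the side `(n, β)` has
many `C0`-coloured edges to the outside of this side; `oY'`: as `PreP.oY`, for the other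
orientation. -/
structure PreX {V : Type u} [Fintype V] {M : ℕ} (ζ : ℝ) (G : SimpleGraph V) (d : ℕ) (P : Pcs V M)
    (A : Pal) (t : V → V → ℕ) : Prop where
  sup : ∀ z ∈ P.V0, ∀ n β, P.ty n = Ty.B → P.rg z ≠ some (n, β) → ζ ^ 2 * d ≤
    (((nb G z).filter (fun w => w ∉ P.V0 ∧ w ∉ sV P n β ∧ t z w ∈ A.C0 d)).card : ℝ)
  oY' : ∀ n, P.ty n = Ty.B → ∀ j, (A.Q j).card ≤
    4 * ((A.Q j).filter (fun b => sgp (Fn G P t n) (sdn P n) (ptn P n) (!j) b ≤ 0)).card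

/-- PRE with the additional exports -/
def Stmt_PREx : Prop :=
  ∀ (C g ρ ρ' K π κ ε : ℝ) (M : ℕ), 1 ≤ C → 0 < g → g ≤ 1 / 10 → 0 < ρ' → ρ' ≤ ρ → ρ ≤ 1 →
    0 < K → 0 < π → π ≤ 1 / 100 → 0 < κ → κ ≤ 1 / 100 → 0 < ε →
    ∃ ε1 : ℝ, 0 < ε1 ∧ ε1 ≤ 1 ∧ ∀ ε2 : ℝ, 0 < ε2 → ε2 ≤ ε1 → ∃ ζ0 : ℝ, 0 < ζ0 ∧
    ∀ ζ : ℝ, 0 < ζ → ζ ≤ ζ0 → ∃ θ0 : ℝ, 0 < θ0 ∧ ∀ θ : ℝ, 0 < θ → θ ≤ θ0 → ∃ d0 : ℕ,
    ∀ {V : Type u} [Fintype V] (G : SimpleGraph V) (d : ℕ) (P : Pcs V M) (A : Pal), d0 ≤ d →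
      DecP C g ρ ζ θ G d P → PartL ρ' ε2 G d P → PartD K ζ ε2 G d P → PalP A d π κ →
      ∃ (t : V → V → ℕ) (c : V → ℕ) (Sp : Finset ℕ), PreP ε ζ G d P A t c Sp ∧ PreX ζ G d P A t

end Pool.Agent.Work.MP_db9399_dp
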